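import Mathlib
import Pool.Agent.N694.SP.Spr
/-!
# From spread sets of prime tuples to the intervals between consecutive powers
-/

set_option autoImplicit false

namespace Pool.Agent.HP27.QF

open Finset Filter
open Pool.Agent.N694.SP (Spr)

/-- the number of the `p` such that all `p + b i` are primes between `n ^ r` and `(n + 1) ^ r` -/
noncomputable def tuples {k : ℕ} (r : ℕ) (b : Fin (k + 1) → ℤ) (n : ℕ) : ℕ :=
  {p : ℤ | ∀ i, ∃ q : ℕ, q.Prime ∧ (q : ℤ) = p + b i ∧ n ^ r < q ∧ q < (n + 1) ^ r}.ncard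

theorem tuples_fin {k : ℕ} (r : ℕ) (b : Fin (k + 1) → ℤ) (n : ℕ) :
    {p : ℤ | ∀ i, ∃ q : ℕ, q.Prime ∧ (q : ℤ) = p + b i ∧ n ^ r < q ∧ q < (n + 1) ^ r}.Finite := by
  refine (Set.finite_Icc (-b 0) ((((n + 1) ^ r : ℕ) : ℤ) - b 0)).subset fun p hp => ?_
  obtain ⟨q, -, h1, -, h3⟩ := hp 0
  have h4 : (q : ℤ) < (((n + 1) ^ r : ℕ) : ℤ) := by exact_mod_cast h3
  have h5 : (0 : ℤ) ≤ q := Int.natCast_nonneg q
  rw [Set.mem_Icc]
  constructor <;> omega

theorem exists_root (r : ℕ) (hr : 1 ≤ r) (p : ℕ) : ∃ n : ℕ, n ^ r ≤ p ∧ p < (n + 1) ^ r := by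
  induction p with
  | zero => exact ⟨0, by rw [zero_pow (by omega)], by simp⟩
  | succ p ih =>
    obtain ⟨n, h1, h2⟩ := ih
    by_cases h : p + 1 < (n + 1) ^ r
    · exact ⟨n, by omega, h⟩
    · refine ⟨n + 1, by omega, ?_⟩
      have h3 : (n + 1) ^ r < (n + 1 + 1) ^ r := Nat.pow_lt_pow_left (by omega) (by omega)
      omega

theorem pow_diff (r n : ℕ) : (n + 1) ^ r ≤ n ^ r + r * (n + 1) ^ (r - 1) := by
  induction r with
  | zero => simp
  | succ r ih =>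
    rcases Nat.eq_zero_or_pos r with h | h
    · subst h
      simp
    · obtain ⟨r', rfl⟩ : ∃ r', r = r' + 1 := ⟨r - 1, by omega⟩
      have e1 : (n + 1) ^ (r' + 1 + 1) = (n + 1) * (n + 1) ^ (r' + 1) := by ring
      have e2 : (n + 1) * (n + 1) ^ (r' + 1) ≤ (n + 1) * (n ^ (r' + 1) + (r' + 1) * (n + 1) ^ (r' + 1 - 1)) :=
        Nat.mul_le_mul_left _ ih
      have e3 : r' + 1 - 1 = r' := by omega
      have e4 : r' + 1 + 1 - 1 = r' + 1 := by omega
      rw [e3] at e2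
      rw [e4, e1]
      have e5 : (n + 1) * (n ^ (r' + 1) + (r' + 1) * (n + 1) ^ r') =
          n ^ (r' + 1 + 1) + n ^ (r' + 1) + (r' + 1) * (n + 1) ^ (r' + 1) := by ring
      have e6 : n ^ (r' + 1) ≤ (n + 1) ^ (r' + 1) := Nat.pow_le_pow_left (by omega) _
      have e7 : (r' + 1 + 1) * (n + 1) ^ (r' + 1) = (r' + 1) * (n + 1) ^ (r' + 1) + (n + 1) ^ (r' + 1) := by ring
      omega

/-- from spread sets to the intervals between the powers -/
theorem count_gen (r ρ V : ℕ) (hr : 2 ≤ r) (c₀ C₀ : ℝ) (hc₀ : 0 < c₀) (hC₀ : 0 < C₀) : ∀ᶠ X : ℕ in atTop,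
    ∀ (k : ℕ) (t : Fin (k + 1) → ℕ) (u : ℤ) (R : Finset ℕ), (∀ i, t i ≤ V) → Spr ρ 1 c₀ C₀ (X ^ r / 2) R →
      (∀ m ∈ R, ∀ i, (m + t i).Prime) →
      c₀ / (16 * C₀ * (r * 2 ^ r + 1)) * X ≤ ({n : ℕ | n ≤ X ∧ (X : ℝ) ^ (r - 1) / Real.log X ^ (ρ + 1) ≤
        (tuples r (fun i => (t i : ℤ) - u) n : ℝ)}.ncard : ℝ) := by
  classical
  have hX : Tendsto (fun X : ℕ => (X : ℝ)) atTop atTop := tendsto_natCast_atTop_atTop
  have hlog : Tendsto (fun X : ℕ => Real.log X) atTop atTop := Real.tendsto_log_atTop.comp hX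
  have hsmall : ∀ᶠ X : ℕ in atTop, (2 * (V : ℝ) + 2) * r ^ ρ * Real.log X ^ ρ ≤ c₀ / 16 * (X : ℝ) := by
    have h3 : (fun x : ℝ => Real.log x ^ ρ) =o[atTop] (fun x : ℝ => x) := by
      have := isLittleO_log_rpow_rpow_atTop (s := 1) ((ρ : ℕ) : ℝ) one_pos
      simpa only [Real.rpow_natCast, Real.rpow_one] using this
    have h4 := (h3.def (show (0 : ℝ) < c₀ / 16 / ((2 * (V : ℝ) + 2) * r ^ ρ + 1) by positivity)).and
      (eventually_ge_atTop (1 : ℝ))
    have h5 := hX.eventually h4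
    filter_upwards [h5] with X hX
    obtain ⟨h6, h7⟩ := hX
    rw [Real.norm_eq_abs, Real.norm_eq_abs, abs_of_nonneg (by linarith : (0 : ℝ) ≤ X)] at h6
    have h8 := le_abs_self (Real.log (X : ℝ) ^ ρ)
    have h9 : ((2 * (V : ℝ) + 2) * r ^ ρ + 1) * Real.log X ^ ρ ≤ c₀ / 16 * X := by
      calc ((2 * (V : ℝ) + 2) * r ^ ρ + 1) * Real.log X ^ ρ ≤
            ((2 * (V : ℝ) + 2) * r ^ ρ + 1) * (c₀ / 16 / ((2 * (V : ℝ) + 2) * r ^ ρ + 1) * X) :=
            mul_le_mul_of_nonneg_left (h8.trans h6) (by positivity)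
        _ = c₀ / 16 * X := by field_simp
    have h10 : 0 ≤ Real.log (X : ℝ) ^ ρ := pow_nonneg (Real.log_nonneg h7) _
    linarith
  filter_upwards [hlog.eventually_ge_atTop (max 1 (r ^ ρ * 16 / c₀)), hsmall,
    eventually_ge_atTop (8 * V + 8)] with X hL hS hX1 k t u R ht hR hprime
  have hXr : (1 : ℝ) ≤ X := by exact_mod_cast (by omega : 1 ≤ X)
  have hX0 : (0 : ℝ) < X := by linarith
  obtain ⟨b, hb⟩ : ∃ b : Fin (k + 1) → ℤ, b = fun i => (t i : ℤ) - u := ⟨_, rfl⟩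
  rw [← hb]
  obtain ⟨L, hLdef⟩ : ∃ L : ℝ, L = Real.log X := ⟨_, rfl⟩
  rw [← hLdef] at hL hS
  have hL1 : 1 ≤ L := (le_max_left _ _).trans hL
  have hL2 : (r : ℝ) ^ ρ * 16 / c₀ ≤ L := (le_max_right _ _).trans hL
  have hL0 : 0 < L := by linarith
  have hr1 : r = (r - 1) + 1 := by omega
  obtain ⟨N, hN⟩ : ∃ N : ℕ, N = X ^ r / 2 := ⟨_, rfl⟩
  rw [← hN] at hR
  have hX3 : X * X ≤ X ^ r := by
    have : X ^ 2 ≤ X ^ r := Nat.pow_le_pow_right (by omega) hr
    rwa [pow_two] at this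
  have hXX : (8 * V + 8) * 8 ≤ X * X := Nat.mul_le_mul hX1 (by omega)
  have hN1 : 2 * N ≤ X ^ r := by rw [hN]; exact Nat.mul_div_le _ _
  have hN2 : X ^ r < 2 * N + 2 := by
    have := Nat.lt_mul_div_succ (X ^ r) (by omega : 0 < 2)
    rw [← hN] at this
    linarith
  have hN3 : X ^ r ≤ 4 * N := by omega
  have hNpos : 2 ≤ N := by omega
  have hNX : N ≤ X ^ r := by omega
  have hN3r : (X : ℝ) ^ r ≤ 4 * N := by exact_mod_cast hN3
  -- the logarithm of `N`
  have hlogN : Real.log N ≤ r * L := by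
    have h1 : Real.log N ≤ Real.log ((X : ℝ) ^ r) := by
      apply Real.log_le_log (by exact_mod_cast (by omega : 0 < N))
      exact_mod_cast hNX
    rw [Real.log_pow, ← hLdef] at h1
    exact h1
  obtain ⟨Q, hQ⟩ : ∃ Q : ℝ, Q = Real.log N ^ ρ := ⟨_, rfl⟩
  have hlogN0 : 0 < Real.log N := by
    apply Real.log_pos
    exact_mod_cast (by omega : 1 < N)
  have hQ0 : 0 < Q := by rw [hQ]; positivity
  have hQL : Q ≤ (r : ℝ) ^ ρ * L ^ ρ := by
    rw [hQ, ← mul_pow]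
    exact pow_le_pow_left₀ hlogN0.le hlogN ρ
  obtain ⟨hR1, hR2, hR3⟩ := hR
  rw [← hQ] at hR2
  -- the classes
  choose f hf1 hf2 using exists_root r (by omega)
  have hfX : ∀ m ∈ R, f (m + t 0) < X := by
    intro m hm
    have h1 := (hR1 m hm).2
    have h3 := hf1 (m + t 0)
    have h6 := ht 0
    have h4 : m + t 0 < X ^ r := by omega
    by_contra hcon
    have h5 : X ^ r ≤ (f (m + t 0)) ^ r := Nat.pow_le_pow_left (not_lt.1 hcon) r
    omega
  have hcover : R ⊆ (range X).biUnion (fun n => R.filter (fun m => f (m + t 0) = n)) := by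
    intro m hm
    rw [mem_biUnion]
    exact ⟨_, mem_range.2 (hfX m hm), mem_filter.2 ⟨hm, rfl⟩⟩
  have hone : ∀ n, (R.filter (fun m => f (m + t 0) = n)).card ≤ tuples r b n + (2 * V + 2) := by
    intro n
    obtain ⟨F1, hF1⟩ : ∃ F1 : Finset ℕ, F1 = (R.filter (fun m => f (m + t 0) = n)).filter
        (fun m => n ^ r + V < m + t 0 ∧ m + t 0 + V < (n + 1) ^ r) := ⟨_, rfl⟩
    obtain ⟨F2, hF2⟩ : ∃ F2 : Finset ℕ, F2 = (R.filter (fun m => f (m + t 0) = n)).filter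
        (fun m => ¬ (n ^ r + V < m + t 0 ∧ m + t 0 + V < (n + 1) ^ r)) := ⟨_, rfl⟩
    have h0 : F1.card + F2.card = (R.filter (fun m => f (m + t 0) = n)).card := by
      rw [hF1, hF2]
      exact card_filter_add_card_filter_not _
    have h1 : F1.card ≤ tuples r b n := by
      have h2 : F1.card ≤ (tuples_fin r b n).toFinset.card := by
        apply card_le_card_of_injOn (fun m : ℕ => (m : ℤ) + u)
        · intro m hm
          rw [hF1, mem_coe, mem_filter, mem_filter] at hm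
          obtain ⟨⟨hmR, hmn⟩, hm1, hm2⟩ := hm
          rw [Set.Finite.coe_toFinset]
          intro i
          refine ⟨m + t i, hprime m hmR i, ?_, ?_, ?_⟩
          · rw [hb]
            push_cast
            ring
          · have := ht 0
            omega
          · have := ht i
            omega
        · intro m _ m' _ he
          have h5 : (m : ℤ) + u = (m' : ℤ) + u := he
          omega
      rw [tuples, Set.ncard_eq_toFinset_card _ (tuples_fin r b n)]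
      exact h2
    have h2 : F2.card ≤ 2 * V + 2 := by
      have h3 : F2.card ≤ (Finset.Icc (n ^ r) (n ^ r + V) ∪ Finset.Ico ((n + 1) ^ r - V) ((n + 1) ^ r)).card := by
        apply card_le_card_of_injOn (fun m : ℕ => m + t 0)
        · intro m hm
          rw [hF2, mem_coe, mem_filter, mem_filter] at hm
          obtain ⟨⟨hmR, hmn⟩, hm1⟩ := hm
          have hp1 := hf1 (m + t 0)
          have hp2 := hf2 (m + t 0)
          rw [hmn] at hp1 hp2
          rw [mem_coe, mem_union, mem_Icc, mem_Ico]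
          show (n ^ r ≤ m + t 0 ∧ m + t 0 ≤ n ^ r + V) ∨ ((n + 1) ^ r - V ≤ m + t 0 ∧ m + t 0 < (n + 1) ^ r)
          omega
        · intro m _ m' _ he
          have h5 : m + t 0 = m' + t 0 := he
          omega
      refine h3.trans ((card_union_le _ _).trans ?_)
      rw [Nat.card_Icc, Nat.card_Ico]
      omega
    omega
  obtain ⟨A, hA⟩ : ∃ A : ℕ, A = r * 2 ^ r := ⟨_, rfl⟩
  have hpow : ∀ n, n < X → (n + 1) ^ r ≤ n ^ r + A * X ^ (r - 1) := by
    intro n hn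
    refine (pow_diff r n).trans ?_
    have h1 : (n + 1) ^ (r - 1) ≤ X ^ (r - 1) := Nat.pow_le_pow_left (by omega) _
    have h2 : r * (n + 1) ^ (r - 1) ≤ A * X ^ (r - 1) := by
      refine Nat.mul_le_mul ?_ h1
      rw [hA]
      exact Nat.le_mul_of_pos_right _ (by positivity)
    omega
  have hXp : 1 ≤ X ^ (r - 1) := Nat.one_le_pow _ _ (by omega)
  have hAr : ((A : ℕ) : ℝ) = r * 2 ^ r := by rw [hA]; push_cast; ring
  have htwo : ∀ n, n < X → ((R.filter (fun m => f (m + t 0) = n)).card : ℝ) ≤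
      C₀ * ((A + 1) * (X : ℝ) ^ (r - 1) / Q) := by
    intro n hn
    rcases (R.filter (fun m => f (m + t 0) = n)).eq_empty_or_nonempty with he | hne
    · rw [he, card_empty, Nat.cast_zero]
      positivity
    obtain ⟨m₀, hm₀, hmin⟩ := exists_min_image _ (fun m : ℕ => m) hne
    obtain ⟨hm₀R, hm₀n⟩ := mem_filter.1 hm₀
    have h1 := (hR1 m₀ hm₀R).1
    have h2 := hR3 (m₀ - 1) ((A + 1) * X ^ (r - 1)) (by
      have h5 : 1 * X ^ (r - 1) ≤ (A + 1) * X ^ (r - 1) := Nat.mul_le_mul_right _ (by omega)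
      have h6 : X ^ r ≤ (X ^ (r - 1)) ^ (1 + 1) := by
        rw [← pow_mul]
        exact Nat.pow_le_pow_right (by omega) (by omega)
      have h7 : (X ^ (r - 1)) ^ (1 + 1) ≤ ((A + 1) * X ^ (r - 1)) ^ (1 + 1) := Nat.pow_le_pow_left (by omega) _
      omega)
    rw [← hQ] at h2
    push_cast at h2
    refine le_trans ?_ h2
    rw [Nat.cast_le]
    apply card_le_card
    intro m hm
    have hmin' := hmin m hm
    obtain ⟨hmR, hmn⟩ := mem_filter.1 hm
    rw [mem_filter]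
    refine ⟨hmR, by omega, ?_⟩
    have h3 := hf1 (m₀ + t 0)
    have h4 := hf2 (m + t 0)
    rw [hm₀n] at h3
    rw [hmn] at h4
    have h5 := hpow n hn
    have h6 : (A + 1) * X ^ (r - 1) = A * X ^ (r - 1) + X ^ (r - 1) := by ring
    omega
  -- the good `n`
  obtain ⟨g, hg⟩ : ∃ g : Finset ℕ, g = (range (X + 1)).filter
      (fun n => (X : ℝ) ^ (r - 1) / L ^ (ρ + 1) ≤ (tuples r b n : ℝ)) := ⟨_, rfl⟩
  have hgc : ({n : ℕ | n ≤ X ∧ (X : ℝ) ^ (r - 1) / L ^ (ρ + 1) ≤ (tuples r b n : ℝ)}.ncard : ℝ) = g.card := by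
    rw [← Set.ncard_coe_finset]
    congr 2
    ext n
    rw [hg]
    simp only [coe_filter, mem_range, Set.mem_ofPred_eq, Nat.lt_succ_iff]
  rw [← hLdef, hgc]
  obtain ⟨T, hT⟩ : ∃ T : ℝ, T = C₀ * ((A + 1) * (X : ℝ) ^ (r - 1) / Q) := ⟨_, rfl⟩
  have hT0 : 0 ≤ T := by rw [hT]; positivity
  obtain ⟨Z, hZ⟩ : ∃ Z : ℝ, Z = (X : ℝ) ^ (r - 1) / L ^ (ρ + 1) := ⟨_, rfl⟩
  have hZ0 : 0 ≤ Z := by rw [hZ]; positivity
  rw [← hZ] at hg
  have hsum : (R.card : ℝ) ≤ T * g.card + X * (Z + (2 * V + 2)) := by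
    have h1 : (R.card : ℝ) ≤ ∑ n ∈ range X, ((R.filter (fun m => f (m + t 0) = n)).card : ℝ) := by
      have h2 := (card_le_card hcover).trans card_biUnion_le
      exact_mod_cast h2
    have h2 : ∀ n ∈ range X, ((R.filter (fun m => f (m + t 0) = n)).card : ℝ) ≤
        (if Z ≤ (tuples r b n : ℝ) then T else 0) + (Z + (2 * V + 2)) := by
      intro n hn
      have h5 : (0 : ℝ) ≤ V := Nat.cast_nonneg _
      split_ifs with h6
      · have := htwo n (mem_range.1 hn)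
        rw [← hT] at this
        linarith
      · push Not at h6
        have h7 : ((R.filter (fun m => f (m + t 0) = n)).card : ℝ) ≤ tuples r b n + (2 * V + 2) := by
          exact_mod_cast hone n
        linarith
    calc (R.card : ℝ) ≤ _ := h1
      _ ≤ _ := sum_le_sum h2
      _ = T * ((range X).filter (fun n => Z ≤ (tuples r b n : ℝ))).card + X * (Z + (2 * V + 2)) := by
          rw [sum_add_distrib, ← sum_filter, sum_const, sum_const, card_range, nsmul_eq_mul, nsmul_eq_mul]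
          ring
      _ ≤ _ := by
          have h3 : (((range X).filter (fun n => Z ≤ (tuples r b n : ℝ))).card : ℝ) ≤ g.card := by
            rw [Nat.cast_le, hg]
            exact card_le_card (filter_subset_filter _ (range_mono (by omega)))
          have := mul_le_mul_of_nonneg_left h3 hT0
          linarith
  have hXpow : (X : ℝ) ^ r = X * (X : ℝ) ^ (r - 1) := by
    rw [← pow_succ']
    congr 1
  -- multiply by `Q`
  have e1 : c₀ * N ≤ C₀ * (A + 1) * (X : ℝ) ^ (r - 1) * g.card + X * (Z + (2 * V + 2)) * Q := by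
    have h1 : c₀ * (N / Q) ≤ T * g.card + X * (Z + (2 * V + 2)) := hR2.trans hsum
    have h2 := mul_le_mul_of_nonneg_right h1 hQ0.le
    have h3 : c₀ * (N / Q) * Q = c₀ * N := by field_simp
    have hTQ : T * Q = C₀ * (A + 1) * (X : ℝ) ^ (r - 1) := by
      rw [hT, mul_assoc, div_mul_cancel₀ _ hQ0.ne', ← mul_assoc]
    have h4 : (T * g.card + X * (Z + (2 * V + 2))) * Q =
        C₀ * (A + 1) * (X : ℝ) ^ (r - 1) * g.card + X * (Z + (2 * V + 2)) * Q := by
      rw [← hTQ]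
      ring
    rw [h3, h4] at h2
    exact h2
  have e2 : X * (Z + (2 * V + 2)) * Q ≤ c₀ / 16 * (X : ℝ) ^ r + c₀ / 16 * (X : ℝ) ^ r := by
    have h1 : X * (Z + (2 * V + 2)) * Q ≤ X * (Z + (2 * V + 2)) * ((r : ℝ) ^ ρ * L ^ ρ) :=
      mul_le_mul_of_nonneg_left hQL (by positivity)
    have h2 : X * (Z + (2 * V + 2)) * ((r : ℝ) ^ ρ * L ^ ρ) =
        (X : ℝ) ^ r * ((r : ℝ) ^ ρ / L) + X * ((2 * (V : ℝ) + 2) * r ^ ρ * L ^ ρ) := by
      rw [hZ, pow_succ, hXpow]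
      field_simp
    have h3 : (r : ℝ) ^ ρ / L ≤ c₀ / 16 := by
      rw [div_le_div_iff₀ hL0 (by norm_num)]
      rw [div_le_iff₀ hc₀] at hL2
      linarith
    have h4 : (X : ℝ) ^ r * ((r : ℝ) ^ ρ / L) ≤ (X : ℝ) ^ r * (c₀ / 16) :=
      mul_le_mul_of_nonneg_left h3 (by positivity)
    have h5 : X * ((2 * (V : ℝ) + 2) * r ^ ρ * L ^ ρ) ≤ X * (c₀ / 16 * (X : ℝ)) :=
      mul_le_mul_of_nonneg_left hS hX0.le
    have h6 : X * (c₀ / 16 * (X : ℝ)) ≤ c₀ / 16 * (X : ℝ) ^ r := by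
      have h7 : (X : ℝ) * X ≤ (X : ℝ) ^ r := by exact_mod_cast hX3
      have h8 := mul_le_mul_of_nonneg_left h7 (by positivity : (0 : ℝ) ≤ c₀ / 16)
      linarith
    linarith
  have e3 : c₀ / 4 * (X : ℝ) ^ r ≤ c₀ * N := by
    have h1 : c₀ / 4 * (X : ℝ) ^ r ≤ c₀ / 4 * (4 * N) := mul_le_mul_of_nonneg_left hN3r (by positivity)
    refine h1.trans (le_of_eq ?_)
    ring
  have hXr0 : 0 < (X : ℝ) ^ r := by positivity
  have e4 : c₀ / 16 * (X : ℝ) ^ r ≤ C₀ * (A + 1) * (X : ℝ) ^ (r - 1) * g.card := by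
    nlinarith
  have e5 : c₀ / (16 * C₀ * (r * 2 ^ r + 1)) * X = (c₀ / 16 * (X : ℝ) ^ r) / (C₀ * (A + 1) * (X : ℝ) ^ (r - 1)) := by
    rw [hAr, hXpow]
    field_simp
  rw [e5, div_le_iff₀ (by positivity)]
  linarith

end Pool.Agent.HP27.QF
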