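import Mathlib
import Pool.Agent.Q278.KT.Fin
/-!
# The right order of magnitude for the number of primes in every interval of length `x ^ 0.615`

From the bound for the number of poor intervals of length `x ^ 0.57` (`Pool.Agent.Q278.KT.mainp_043`): most of the
subintervals of length `x ^ 0.57` of an interval of length `x ^ 0.615` are rich.
-/

set_option autoImplicit false

namespace Pool.Agent.HP27.QF

open Finset Filter Topology
open Pool.Agent.Q240.KS

theorem sum_Ioc (P : ℕ → Prop) [DecidablePred P] (a : ℕ → ℕ) (ha : Monotone a) (J : ℕ) :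
    ∑ j ∈ range J, ((Ioc (a j) (a (j + 1))).filter P).card = ((Ioc (a 0) (a J)).filter P).card := by
  induction J with
  | zero => simp
  | succ J ih =>
    rw [sum_range_succ, ih, ← card_union_of_disjoint, ← filter_union,
      Finset.Ioc_union_Ioc_eq_Ioc (ha (Nat.zero_le _)) (ha (Nat.le_succ _))]
    rw [disjoint_left]
    intro x hx hx'
    have h1 := (mem_Ioc.1 (mem_filter.1 hx).1).2
    have h2 := (mem_Ioc.1 (mem_filter.1 hx').1).1
    omega

theorem low : ∃ c : ℝ, 0 < c ∧ ∃ x₀ : ℕ, ∀ x H : ℕ, x₀ ≤ x → (x : ℝ) ^ (0.615 : ℝ) ≤ H → H ≤ x →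
    c * H / Real.log x ≤ (((Ioc x (x + H)).filter Nat.Prime).card : ℝ) := by
  classical
  obtain ⟨c, η, Y₀, hc, hη, hmain⟩ := Pool.Agent.Q278.KT.mainp_043
  have hx : Tendsto (fun x : ℕ => (x : ℝ)) atTop atTop := tendsto_natCast_atTop_atTop
  have hlogx : Tendsto (fun x : ℕ => Real.log (x : ℝ)) atTop atTop := Real.tendsto_log_atTop.comp hx
  have hexp : Tendsto (fun x : ℕ => Real.exp (η * Real.log (x : ℝ))) atTop atTop :=
    Real.tendsto_exp_atTop.comp (hlogx.const_mul_atTop hη)
  have hexp2 : Tendsto (fun x : ℕ => Real.exp (0.045 * Real.log (x : ℝ))) atTop atTop :=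
    Real.tendsto_exp_atTop.comp (hlogx.const_mul_atTop (by norm_num))
  obtain ⟨x₀, hx₀⟩ := eventually_atTop.1 ((hexp.eventually_ge_atTop 12).and
    ((hexp2.eventually_ge_atTop 6).and ((hlogx.eventually_ge_atTop (max Y₀ 1)).and (eventually_ge_atTop 1))))
  refine ⟨c / 12, by positivity, x₀, fun x H hxx hH1 hH2 => ?_⟩
  obtain ⟨e1, e2, e3, e4⟩ := hx₀ x hxx
  have hxr : (1 : ℝ) ≤ x := by exact_mod_cast e4
  have hx0 : (0 : ℝ) < x := by linarith
  obtain ⟨Y, hY⟩ : ∃ Y : ℝ, Y = Real.log x := ⟨_, rfl⟩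
  rw [← hY] at e1 e2 e3 ⊢
  have hY1 : 1 ≤ Y := (le_max_right _ _).trans e3
  have hY0 : Y₀ ≤ Y := (le_max_left _ _).trans e3
  have hYp : 0 < Y := by linarith
  have hexpY : Real.exp Y = x := by rw [hY, Real.exp_log hx0]
  obtain ⟨h, hh⟩ : ∃ h : ℝ, h = Real.exp (0.57 * Y) := ⟨_, rfl⟩
  have hh0 : 0 < h := by rw [hh]; exact Real.exp_pos _
  have hH1' : Real.exp (0.615 * Y) ≤ H := by
    rw [Real.rpow_def_of_pos hx0, ← hY] at hH1
    rwa [mul_comm] at hH1
  have hHr : (H : ℝ) ≤ x := by exact_mod_cast hH2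
  -- the number of subintervals
  obtain ⟨J, hJ⟩ : ∃ J : ℕ, J = ⌊(H : ℝ) / (3 * h)⌋₊ := ⟨_, rfl⟩
  have hq : Real.exp (0.045 * Y) ≤ H / h := by
    rw [le_div_iff₀ hh0, hh, ← Real.exp_add]
    refine le_trans (le_of_eq ?_) hH1'
    congr 1
    ring
  have hq0 : 0 ≤ (H : ℝ) / (3 * h) := by positivity
  have hq3 : (H : ℝ) / (3 * h) = (H / h) / 3 := by field_simp
  have hJle : (J : ℝ) ≤ H / (3 * h) := by rw [hJ]; exact Nat.floor_le hq0
  have hJge : (H : ℝ) / h / 6 ≤ J := by
    have h1 : (H : ℝ) / (3 * h) < J + 1 := by rw [hJ]; exact Nat.lt_floor_add_one _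
    rw [hq3] at h1
    have h2 : 6 ≤ (H : ℝ) / h := e2.trans hq
    linarith
  have hJh : (J : ℝ) * h ≤ H / 3 := by
    rw [le_div_iff₀ (by positivity)] at hJle
    linarith
  -- the poor intervals
  obtain ⟨bad, hbad⟩ : ∃ bad : Finset ℕ, bad = (range J).filter (fun j : ℕ => (pic (x + j * h) h : ℝ) < c * h / Y) :=
    ⟨_, rfl⟩
  have hinj : Function.Injective (fun j : ℕ => (x : ℝ) + j * h) := by
    intro j j' hjj
    have h1 : (x : ℝ) + j * h = x + j' * h := hjj
    have h2 : (j : ℝ) = j' := mul_right_cancel₀ hh0.ne' (by linarith)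
    exact_mod_cast h2
  have hbadc : (bad.card : ℝ) ≤ Real.exp ((0.045 - η) * Y) := by
    have h1 := hmain Y hY0 h (by
      rw [hh]
      apply Real.exp_le_exp.2
      nlinarith) (by
      rw [hh]
      apply Real.exp_le_exp.2
      nlinarith) (bad.image (fun j : ℕ => (x : ℝ) + j * h)) (by
        intro y hy
        obtain ⟨j, hj, rfl⟩ := mem_image.1 hy
        rw [hbad, mem_filter, mem_range] at hj
        have hjh : (j : ℝ) * h ≤ H / 3 := by
          refine le_trans ?_ hJh
          apply mul_le_mul_of_nonneg_right _ hh0.le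
          exact_mod_cast hj.1.le
        have hjh0 : 0 ≤ (j : ℝ) * h := by positivity
        refine ⟨by linarith, ?_, hj.2⟩
        have h2 : Real.log ((x : ℝ) + j * h) - Y = Real.log (1 + j * h / x) := by
          rw [hY, ← Real.log_div (by linarith) hx0.ne']
          congr 1
          field_simp
        have h3 : (j : ℝ) * h / x ≤ 1 / 3 := by
          rw [div_le_iff₀ hx0]
          linarith
        have h4 : 0 ≤ (j : ℝ) * h / x := by positivity
        rw [h2, abs_of_nonneg (Real.log_nonneg (by linarith))]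
        have h5 := Real.log_le_sub_one_of_pos (show 0 < 1 + (j : ℝ) * h / x by linarith)
        linarith) (by
        intro y hy y' hy' hne
        obtain ⟨j, -, rfl⟩ := mem_image.1 hy
        obtain ⟨j', -, rfl⟩ := mem_image.1 hy'
        have hjj : j ≠ j' := by
          rintro rfl
          exact hne rfl
        have h2 : (1 : ℝ) ≤ |(j : ℝ) - j'| := by
          rcases Nat.lt_or_gt_of_ne hjj with h3 | h3
          · have h4 : (j : ℝ) + 1 ≤ j' := by exact_mod_cast h3
            rw [abs_sub_comm]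
            exact le_trans (by linarith) (le_abs_self _)
          · have h4 : (j' : ℝ) + 1 ≤ j := by exact_mod_cast h3
            exact le_trans (by linarith) (le_abs_self _)
        have h3 : (x : ℝ) + j * h - (x + j' * h) = (j - j') * h := by ring
        rw [h3, abs_mul, abs_of_pos hh0]
        nlinarith)
    rwa [card_image_of_injective _ hinj] at h1
  have hbad2 : (bad.card : ℝ) ≤ J / 2 := by
    refine hbadc.trans ?_
    have h1 : Real.exp ((0.045 - η) * Y) * Real.exp (η * Y) = Real.exp (0.045 * Y) := by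
      rw [← Real.exp_add]
      congr 1
      ring
    have h2 := Real.exp_pos ((0.045 - η) * Y)
    have h3 : 12 * Real.exp ((0.045 - η) * Y) ≤ Real.exp (0.045 * Y) := by
      rw [← h1]
      nlinarith
    linarith
  -- the sum
  have hsum : ∑ j ∈ range J, ((pic (x + j * h) h : ℕ) : ℝ) ≤ (((Ioc x (x + H)).filter Nat.Prime).card : ℝ) := by
    have h1 := sum_Ioc Nat.Prime (fun j : ℕ => ⌊(x : ℝ) + j * h⌋₊) (by
      intro j j' hjj
      apply Nat.floor_le_floor
      have : (j : ℝ) * h ≤ j' * h := mul_le_mul_of_nonneg_right (by exact_mod_cast hjj) hh0.le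
      linarith) J
    have h2 : ∀ j : ℕ, pic (x + j * h) h =
        ((Ioc (⌊(x : ℝ) + j * h⌋₊) (⌊(x : ℝ) + ((j + 1 : ℕ) : ℝ) * h⌋₊)).filter Nat.Prime).card := by
      intro j
      unfold pic
      have h3 : (x : ℝ) + j * h + h = x + ((j + 1 : ℕ) : ℝ) * h := by push_cast; ring
      rw [h3]
    have h3 : ∑ j ∈ range J, pic (x + j * h) h ≤ ((Ioc x (x + H)).filter Nat.Prime).card := by
      rw [sum_congr rfl (fun j _ => h2 j)]
      refine le_trans (le_of_eq h1) (card_le_card (filter_subset_filter _ ?_))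
      intro y hy
      rw [mem_Ioc] at hy ⊢
      have h4 : ⌊(x : ℝ) + ((0 : ℕ) : ℝ) * h⌋₊ = x := by simp
      have h5 : ⌊(x : ℝ) + (J : ℝ) * h⌋₊ ≤ x + H := by
        have h6 : ⌊(x : ℝ) + (J : ℝ) * h⌋₊ ≤ ⌊((x + H : ℕ) : ℝ)⌋₊ := by
          apply Nat.floor_le_floor
          push_cast
          have : (0 : ℝ) ≤ H := Nat.cast_nonneg H
          linarith
        rwa [Nat.floor_natCast] at h6
      have h7 := hy.1
      have h8 := hy.2
      rw [h4] at h7
      exact ⟨h7, h8.trans h5⟩
    exact_mod_cast h3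
  refine le_trans ?_ hsum
  have hgood : (J : ℝ) / 2 * (c * h / Y) ≤ ∑ j ∈ range J, ((pic (x + j * h) h : ℕ) : ℝ) := by
    obtain ⟨good, hgooddef⟩ : ∃ good : Finset ℕ, good = (range J).filter
        (fun j : ℕ => ¬ (pic (x + j * h) h : ℝ) < c * h / Y) := ⟨_, rfl⟩
    have h1 : (J : ℝ) = bad.card + good.card := by
      have h2 := card_filter_add_card_filter_not (s := range J) (fun j : ℕ => (pic (x + j * h) h : ℝ) < c * h / Y)
      rw [card_range, ← hbad, ← hgooddef] at h2
      exact_mod_cast h2.symm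
    have h3 : (J : ℝ) / 2 ≤ good.card := by linarith
    have h4 : (good.card : ℝ) * (c * h / Y) ≤ ∑ j ∈ good, ((pic (x + j * h) h : ℕ) : ℝ) := by
      rw [← nsmul_eq_mul]
      apply card_nsmul_le_sum
      intro j hj
      rw [hgooddef, mem_filter] at hj
      exact not_lt.1 hj.2
    calc (J : ℝ) / 2 * (c * h / Y) ≤ good.card * (c * h / Y) := mul_le_mul_of_nonneg_right h3 (by positivity)
      _ ≤ _ := h4
      _ ≤ _ := by
          apply sum_le_sum_of_subset_of_nonneg
          · rw [hgooddef]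
            exact filter_subset _ _
          · intro _ _ _
            positivity
  refine le_trans ?_ hgood
  have h1 : c / 12 * H / Y = (H / h / 6) / 2 * (c * h / Y) := by field_simp; ring
  rw [h1]
  exact mul_le_mul_of_nonneg_right (by linarith) (by positivity)

end Pool.Agent.HP27.QF
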