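import Mathlib
import Pool.Agent.X58.IV.Prm
import Pool.Agent.HP27.QF.Low
/-!
# Narrow patterns of primes in every interval of length `x ^ 0.615`
-/

set_option autoImplicit false

namespace Pool.Agent.HP27.QF

open Finset Filter Topology
open Pool.Agent.X58.IV (HasAP primes_ap)

open Classical in
/-- the primes of `(A, A + X]` which do not start a narrow copy of the pattern `h` -/
theorem bad_le (k : ℕ) (h : Fin k → ℤ) (ρ : ℝ) (hρ : 0 < ρ) : ∃ B X₀ : ℕ, ∀ X A : ℕ, X₀ ≤ X → X ≤ A →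
    (((Ioc A (A + X)).filter (fun p : ℕ => p.Prime ∧ ¬ ∃ D : ℕ, 1 ≤ D ∧ (D : ℝ) ≤ Real.log X ^ B ∧
      ∀ i, ∃ q : ℕ, q.Prime ∧ A < q ∧ q ≤ A + X ∧ (q : ℤ) = p + h i * D)).card : ℝ) ≤ ρ * X / Real.log X := by
  obtain ⟨s, hs⟩ : ∃ s : ℕ, ∀ i, (h i).natAbs ≤ s :=
    ⟨∑ i, (h i).natAbs, fun i => single_le_sum (f := fun i => (h i).natAbs) (fun _ _ => Nat.zero_le _) (mem_univ i)⟩
  obtain ⟨B, X₀, hB⟩ := primes_ap (2 * s + 1) ρ hρ
  refine ⟨B, X₀, fun X A hX hXA => ?_⟩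
  by_contra hcon
  rw [not_le] at hcon
  obtain ⟨a, d, hd1, hd2, hU⟩ := hB X A hX hXA ((Ioc A (A + X)).filter (fun p : ℕ => p.Prime ∧
      ¬ ∃ D : ℕ, 1 ≤ D ∧ (D : ℝ) ≤ Real.log X ^ B ∧
      ∀ i, ∃ q : ℕ, q.Prime ∧ A < q ∧ q ≤ A + X ∧ (q : ℤ) = p + h i * D)) (by
        intro p hp
        rw [mem_filter] at hp ⊢
        exact ⟨hp.1, hp.2.1⟩) hcon.le
  have hp := hU s (by omega)
  rw [mem_filter] at hp
  apply hp.2.2
  refine ⟨d, hd1, hd2, fun i => ?_⟩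
  have h1 := hs i
  obtain ⟨j, hj⟩ : ∃ j : ℕ, (j : ℤ) = s + h i := ⟨((s : ℤ) + h i).toNat, Int.toNat_of_nonneg (by omega)⟩
  have hq := hU j (by omega)
  rw [mem_filter, mem_Ioc] at hq
  refine ⟨a + j * d, hq.2.1, hq.1.1, hq.1.2, ?_⟩
  push_cast
  rw [hj]
  ring

open Classical in
/-- **narrow patterns of primes in all intervals** -/
theorem narrow (k : ℕ) (h : Fin k → ℤ) (ε : ℝ) (hε : 0 < ε) : ∃ B x₀ : ℕ, ∀ x H : ℕ, x₀ ≤ x →
    (x : ℝ) ^ (0.615 : ℝ) ≤ H → H ≤ x →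
    (((Ioc x (x + H)).filter (fun p : ℕ => p.Prime ∧ ¬ ∃ D : ℕ, 1 ≤ D ∧ (D : ℝ) ≤ Real.log x ^ B ∧
      ∀ i, ∃ q : ℕ, q.Prime ∧ x < q ∧ q ≤ x + H ∧ (q : ℤ) = p + h i * D)).card : ℝ) ≤
      ε * (((Ioc x (x + H)).filter Nat.Prime).card : ℝ) := by
  obtain ⟨c, hc, x₁, hlow⟩ := low
  obtain ⟨B, X₀, hbad⟩ := bad_le k h (ε * c / 2) (by positivity)
  have hx : Tendsto (fun x : ℕ => (x : ℝ)) atTop atTop := tendsto_natCast_atTop_atTop
  have hpow : Tendsto (fun x : ℕ => (x : ℝ) ^ (0.615 : ℝ)) atTop atTop :=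
    (tendsto_rpow_atTop (by norm_num)).comp hx
  obtain ⟨x₂, hx₂⟩ := eventually_atTop.1 ((hpow.eventually_ge_atTop (X₀ : ℝ)).and (eventually_ge_atTop 3))
  refine ⟨B, max x₁ x₂, fun x H hxx hH1 hH2 => ?_⟩
  obtain ⟨e1, e2⟩ := hx₂ x ((le_max_right _ _).trans hxx)
  have hHX : X₀ ≤ H := by exact_mod_cast e1.trans hH1
  have hx3 : (3 : ℝ) ≤ x := by exact_mod_cast e2
  have hx0 : (0 : ℝ) < x := by linarith
  have hlogx : 0 < Real.log x := Real.log_pos (by linarith)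
  have hlogH : Real.log x / 2 ≤ Real.log H := by
    have h1 := Real.log_le_log (by positivity) hH1
    rw [Real.log_rpow hx0] at h1
    linarith
  have hlogHx : Real.log H ≤ Real.log x := by
    have hH0 : (0 : ℝ) < H := lt_of_lt_of_le (by positivity) hH1
    exact Real.log_le_log hH0 (by exact_mod_cast hH2)
  have h1 := hbad H x hHX hH2
  have h2 := hlow x H ((le_max_left _ _).trans hxx) hH1 hH2
  have h3 : ε * c / 2 * H / Real.log H ≤ ε * (c * H / Real.log x) := by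
    have h4 : ε * c / 2 * H / Real.log H ≤ ε * c / 2 * H / (Real.log x / 2) :=
      div_le_div_of_nonneg_left (by positivity) (by positivity) hlogH
    refine h4.trans (le_of_eq ?_)
    field_simp
  refine le_trans ?_ (h1.trans (h3.trans (mul_le_mul_of_nonneg_left h2 hε.le)))
  rw [Nat.cast_le]
  apply card_le_card
  intro p hp
  rw [mem_filter] at hp ⊢
  refine ⟨hp.1, hp.2.1, ?_⟩
  rintro ⟨D, hD1, hD2, hD3⟩
  apply hp.2.2
  refine ⟨D, hD1, hD2.trans ?_, hD3⟩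
  have hlogH0 : 0 ≤ Real.log H := by linarith
  exact pow_le_pow_left₀ hlogH0 hlogHx B

end Pool.Agent.HP27.QF
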