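import Mathlib
import Pool.Agent.HP27.S3.Spread
import Pool.Agent.HP27.QF.Count
import Pool.Agent.N524.Szem
/-!
# Approximate dilates of every pattern of integers, of bounded size, in the primes between consecutive powers

The coloured Maynard-Tao theorem with spread sets and Szemerédi's theorem for the classes.
-/

set_option autoImplicit false

namespace Pool.Agent.HP27.QF

open Finset Filter
open Pool.Agent.N694.SP (Spr)
open Pool.Agent.HP27.S3 (hitU)

/-- Szemerédi's theorem for the integers -/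
theorem szemerediZ (S : Finset ℤ) (δ : ℝ) (hδ : 0 < δ) : ∃ s₀ : ℕ, ∀ s ≥ s₀, ∀ E ⊆ Finset.Icc (-(s : ℤ)) s,
    δ * (2 * s + 1) ≤ (E.card : ℝ) → ∃ (a : ℤ) (j : ℕ), 1 ≤ j ∧ ∀ w ∈ S, a + j * w ∈ E := by
  have hcard : ∀ s : ℕ, (Finset.Icc (-(s : ℤ)) s).card = 2 * s + 1 := by
    intro s
    rw [Int.card_Icc]
    omega
  obtain ⟨s₀, h⟩ := Pool.Agent.N524.szem_abs (G := ℤ) (fun s => Finset.Icc (-(s : ℤ)) s) 2 (by norm_num)
    (by
      intro s t hst x hx
      simp only [mem_Icc] at hx ⊢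
      omega)
    (by
      intro v
      refine ⟨v.natAbs, fun s u hu => ?_⟩
      simp only [mem_Icc] at hu ⊢
      omega)
    (by
      intro K
      refine ⟨K, fun s hs => ?_⟩
      rw [hcard, hcard]
      have : (K : ℝ) ≤ s := by exact_mod_cast hs
      push_cast
      linarith)
    (by
      intro s
      exact ⟨0, by simp⟩)
    S δ hδ
  refine ⟨s₀, fun s hs E hE hc => ?_⟩
  obtain ⟨a, j, hj, hw⟩ := h s hs E hE (by
    rw [hcard]
    push_cast
    exact hc)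
  refine ⟨a, j, hj, fun w hwS => ?_⟩
  have := hw w hwS
  rwa [nsmul_eq_mul] at this

/-- **approximate dilates of a pattern between consecutive powers** -/
theorem shape (k : ℕ) (h : Fin (k + 1) → ℤ) (r : ℕ) (hr : 2 ≤ r) : ∃ E J B : ℕ, ∀ M : ℕ, 1 ≤ M →
    ∃ c : ℝ, 0 < c ∧ ∀ᶠ X : ℕ in atTop, ∃ D : ℕ, M ≤ D ∧ D ≤ J * M ∧ ∃ b : Fin (k + 1) → ℤ,
      (∀ i, |b i - D * h i| ≤ E) ∧
      c * X ≤ ({n : ℕ | n ≤ X ∧ (X : ℝ) ^ (r - 1) / Real.log X ^ B ≤ (tuples r b n : ℝ)}.ncard : ℝ) := by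
  classical
  obtain ⟨s, hs⟩ := szemerediZ (insert 0 (insert 1 (univ.image h))) (1 / 4) (by norm_num)
  have hsz := hs s le_rfl
  obtain ⟨T, hT⟩ : ∃ T : ℕ, T = 2 * s + 1 := ⟨_, rfl⟩
  obtain ⟨K, hK, hhit⟩ := hitU T
  obtain ⟨L, hL⟩ : ∃ L : ℕ, L = (T * K).factorial := ⟨_, rfl⟩
  have hL1 : 1 ≤ L := by rw [hL]; exact Nat.factorial_pos _
  refine ⟨L * K, 2 * s * (L * (K + 1)), T * K + 1 + 1, fun M hM => ?_⟩
  obtain ⟨M', hM'⟩ : ∃ M' : ℕ, M' = L * (K + 1) * M := ⟨_, rfl⟩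
  have hMM : M ≤ M' := by
    rw [hM']
    exact Nat.le_mul_of_pos_left _ (Nat.mul_pos hL1 (by omega))
  have hLK : L * K < M' := by
    have h1 : L * (K + 1) * 1 ≤ L * (K + 1) * M := Nat.mul_le_mul_left _ hM
    have h2 : L * (K + 1) = L * K + L := by ring
    omega
  have hM'0 : 0 < M' := by omega
  obtain ⟨t, ht⟩ : ∃ t : Fin T → Fin K → ℕ, t = fun (g : Fin T) (i : Fin K) => (g : ℕ) * M' + L * (i : ℕ) := ⟨_, rfl⟩
  have hLi : ∀ i : Fin K, L * (i : ℕ) < M' := by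
    intro i
    have h1 : L * (i : ℕ) ≤ L * K := Nat.mul_le_mul_left _ i.2.le
    omega
  have htinj : Function.Injective (fun x : Fin T × Fin K => t x.1 x.2) := by
    rintro ⟨g, i⟩ ⟨g', i'⟩ he
    have he' : (g : ℕ) * M' + L * (i : ℕ) = (g' : ℕ) * M' + L * (i' : ℕ) := by
      have h1 : t g i = t g' i' := he
      rw [ht] at h1
      exact h1
    have hg : (g : ℕ) = g' := by
      rcases Nat.lt_trichotomy (g : ℕ) g' with h1 | h1 | h1
      · have h2 : ((g : ℕ) + 1) * M' ≤ (g' : ℕ) * M' := Nat.mul_le_mul_right _ h1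
        have h3 : ((g : ℕ) + 1) * M' = (g : ℕ) * M' + M' := by ring
        have := hLi i
        omega
      · exact h1
      · have h2 : ((g' : ℕ) + 1) * M' ≤ (g : ℕ) * M' := Nat.mul_le_mul_right _ h1
        have h3 : ((g' : ℕ) + 1) * M' = (g' : ℕ) * M' + M' := by ring
        have := hLi i'
        omega
    have hi : (i : ℕ) = i' := by
      rw [hg] at he'
      exact Nat.eq_of_mul_eq_mul_left hL1 (by omega)
    rw [Fin.ext hg, Fin.ext hi]
  obtain ⟨V, hV⟩ : ∃ V : ℕ, V = T * M' + M' := ⟨_, rfl⟩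
  have htV : ∀ g i, t g i ≤ V := by
    intro g i
    rw [ht, hV]
    have h1 : (g : ℕ) * M' ≤ T * M' := Nat.mul_le_mul_right _ g.2.le
    have h2 := hLi i
    show (g : ℕ) * M' + L * (i : ℕ) ≤ _
    omega
  obtain ⟨c₀, C₀, hc₀, hC₀, hev⟩ := hhit (by omega) (fun g i => ((1 : ℤ), ((t g i : ℕ) : ℤ)))
    (by
      intro x y hxy
      have h1 : ((t x.1 x.2 : ℕ) : ℤ) = ((t y.1 y.2 : ℕ) : ℤ) := congrArg Prod.snd hxy
      exact htinj (by exact_mod_cast h1))
    (fun g i => ⟨by norm_num, isCoprime_one_left⟩)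
    (by
      intro p hp hpT
      refine ⟨1, fun g i hd => ?_⟩
      have hpL : p ∣ L := by
        rw [hL]
        exact (hp.dvd_factorial).2 hpT
      have h1 : p ∣ t g i := by
        rw [ht]
        show p ∣ (g : ℕ) * M' + L * (i : ℕ)
        apply dvd_add
        · apply Dvd.dvd.mul_left
          rw [hM', mul_assoc]
          exact hpL.mul_right _
        · exact hpL.mul_right _
      have h2 : (p : ℤ) ∣ 1 * 1 + ((t g i : ℕ) : ℤ) := hd
      rw [mul_one] at h2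
      have h3 : p ∣ 1 + t g i := by exact_mod_cast h2
      have h4 : p ∣ 1 := (Nat.dvd_add_left h1).1 h3
      exact hp.one_lt.ne' (Nat.dvd_one.1 h4)) 1
  have hN : Tendsto (fun X : ℕ => X ^ r / 2) atTop atTop := by
    apply tendsto_atTop.2
    intro b
    filter_upwards [eventually_ge_atTop (2 * b + 1)] with X hX
    rw [Nat.le_div_iff_mul_le (by norm_num)]
    have h1 : X ^ 1 ≤ X ^ r := Nat.pow_le_pow_right (by omega) (by omega)
    rw [pow_one] at h1
    omega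
  refine ⟨c₀ / (16 * C₀ * (r * 2 ^ r + 1)), by positivity, ?_⟩
  filter_upwards [hN.eventually hev, count_gen r (T * K + 1) V hr c₀ C₀ hc₀ hC₀] with X hX1 hX2
  obtain ⟨S, σ, hS, R, hR, hprime⟩ := hX1
  -- Szemerédi
  obtain ⟨F, hF⟩ : ∃ F : Finset ℤ, F = S.image (fun g : Fin T => ((g : ℕ) : ℤ) - s) := ⟨_, rfl⟩
  have hFc : F.card = S.card := by
    rw [hF]
    apply card_image_of_injective
    intro g g' he
    have h1 : ((g : ℕ) : ℤ) - s = ((g' : ℕ) : ℤ) - s := he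
    exact Fin.ext (by omega)
  obtain ⟨a, j, hj1, haj⟩ := hsz F (by
    intro x hx
    rw [hF] at hx
    obtain ⟨g, -, rfl⟩ := mem_image.1 hx
    have := g.2
    rw [mem_Icc]
    omega) (by
    rw [hFc]
    have h1 : (T : ℝ) = 2 * s + 1 := by rw [hT]; push_cast; ring
    rw [← h1]
    have h2 : (0 : ℝ) ≤ T := Nat.cast_nonneg _
    linarith)
  have hj2 : j ≤ 2 * s := by
    have h0 := haj 0 (mem_insert_self _ _)
    have h1 := haj 1 (mem_insert_of_mem (mem_insert_self _ _))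
    rw [hF] at h0 h1
    obtain ⟨g, -, hg⟩ := mem_image.1 h0
    obtain ⟨g', -, hg'⟩ := mem_image.1 h1
    have := g.2
    have := g'.2
    have hg1 : ((g : ℕ) : ℤ) - s = a + j * 0 := hg
    have hg2 : ((g' : ℕ) : ℤ) - s = a + j * 1 := hg'
    omega
  have hgi : ∀ i : Fin (k + 1), ∃ g ∈ S, ((g : ℕ) : ℤ) - s = a + j * h i := by
    intro i
    have h1 := haj (h i) (mem_insert_of_mem (mem_insert_of_mem (mem_image_of_mem _ (mem_univ i))))
    rw [hF] at h1
    obtain ⟨g, hg, hg'⟩ := mem_image.1 h1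
    exact ⟨g, hg, hg'⟩
  choose g hgS hg using hgi
  refine ⟨j * M', hMM.trans (Nat.le_mul_of_pos_left _ hj1), ?_,
    fun i => ((t (g i) (σ (g i)) : ℕ) : ℤ) - (a + s) * M', ?_, ?_⟩
  · rw [hM']
    calc j * (L * (K + 1) * M) ≤ 2 * s * (L * (K + 1) * M) := Nat.mul_le_mul_right _ hj2
      _ = 2 * s * (L * (K + 1)) * M := by ring
  · intro i
    have h1 := hg i
    have h2 : ((t (g i) (σ (g i)) : ℕ) : ℤ) = (g i : ℕ) * M' + L * (σ (g i) : ℕ) := by
      rw [ht]
      push_cast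
      ring
    have h3 : ((t (g i) (σ (g i)) : ℕ) : ℤ) - (a + s) * M' - ((j * M' : ℕ) : ℤ) * h i = ((L * (σ (g i) : ℕ) : ℕ) : ℤ) := by
      rw [h2]
      push_cast
      linear_combination (M' : ℤ) * h1
    rw [h3, Nat.abs_cast]
    have h4 : L * (σ (g i) : ℕ) ≤ L * K := Nat.mul_le_mul_left _ (σ (g i)).2.le
    exact_mod_cast h4
  · exact hX2 k (fun i => t (g i) (σ (g i))) ((a + s) * M') R (fun i => htV _ _) hR (by
      intro m hm i
      have h1 := hprime m hm (g i) (hgS i)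
      have h2 : ((1 : ℤ) * (m : ℤ) + ((t (g i) (σ (g i)) : ℕ) : ℤ)).toNat = m + t (g i) (σ (g i)) := by
        have : (1 : ℤ) * (m : ℤ) + ((t (g i) (σ (g i)) : ℕ) : ℤ) = ((m + t (g i) (σ (g i)) : ℕ) : ℤ) := by
          push_cast
          ring
        rw [this, Int.toNat_natCast]
      have h3 : ((1 : ℤ) * (m : ℤ) + ((t (g i) (σ (g i)) : ℕ) : ℤ)).toNat.Prime := h1
      rwa [h2] at h3)

end Pool.Agent.HP27.QF
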